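import Pool.Agent.E8helper48.RR.Stm4
import Pool.Agent.E8helper40.RR.Nab

/-!
# RR, piece N2: the equation (E2), solutions which never alternate strictly around the equilibrium

Adapted from `Pool/Agent/E8helper40/RR/Nab.lean`.
-/

set_option autoImplicit false

namespace Pool.Agent.E8helper52.RR

open Filter Topology RR48
open Pool.Agent.E8helper73.RR (bounds)
open Pool.Agent.E8helper40.RR (six alg2 gg frac eq_gg gg_lt lt_gg gg_z)

/-- limit orbits -/
theorem orbit2 {al D z : ℝ} {y : ℕ → ℝ} {L K I S c : ℝ} (hb : ∀ n, y n ∈ Set.Icc L K)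
    (hstep : ∀ n, y (n + 3) * (y (n + 1) + D * y n) = al + y (n + 1))
    (n1 : ∀ n, ¬ (z < y n ∧ y (n + 1) < z ∧ z < y (n + 2)))
    (n2 : ∀ n, ¬ (y n < z ∧ z < y (n + 1) ∧ y (n + 2) < z))
    (hup : ∀ ε > 0, ∃ N, ∀ n ≥ N, y n < S + ε) (hlo : ∀ ε > 0, ∃ N, ∀ n ≥ N, I - ε < y n)
    (hc : ∀ ε > 0, ∀ N, ∃ n ≥ N, |y n - c| < ε) :
    ∃ y0 y1 y2 y3 y4 : ℝ, (I ≤ y0 ∧ y0 ≤ S) ∧ (I ≤ y1 ∧ y1 ≤ S) ∧ (I ≤ y2 ∧ y2 ≤ S) ∧
      (I ≤ y3 ∧ y3 ≤ S) ∧ (I ≤ y4 ∧ y4 ≤ S) ∧
      y3 * (y1 + D * y0) = al + y1 ∧ y4 * (y2 + D * y1) = al + y2 ∧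
      c * (y3 + D * y2) = al + y3 ∧
      ¬ (z < y1 ∧ y2 < z ∧ z < y3) ∧ ¬ (y1 < z ∧ z < y2 ∧ y3 < z) ∧
      ¬ (z < y3 ∧ y4 < z ∧ z < c) ∧ ¬ (y3 < z ∧ z < y4 ∧ c < z) := by
  obtain ⟨v, φ, hv5, hv, l⟩ := six hb hup hlo hc
  have l0 : Tendsto (fun k => y (φ k)) atTop (𝓝 (v 0)) := l 0
  have l1 : Tendsto (fun k => y (φ k + 1)) atTop (𝓝 (v 1)) := l 1
  have l2 : Tendsto (fun k => y (φ k + 2)) atTop (𝓝 (v 2)) := l 2
  have l3 : Tendsto (fun k => y (φ k + 3)) atTop (𝓝 (v 3)) := l 3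
  have l4 : Tendsto (fun k => y (φ k + 4)) atTop (𝓝 (v 4)) := l 4
  have l5 : Tendsto (fun k => y (φ k + 5)) atTop (𝓝 c) := by rw [← hv5]; exact l 5
  refine ⟨v 0, v 1, v 2, v 3, v 4, hv 0, hv 1, hv 2, hv 3, hv 4, ?_, ?_, ?_, ?_, ?_, ?_, ?_⟩
  · have t1 : Tendsto (fun k => y (φ k + 3) * (y (φ k + 1) + D * y (φ k)))
        atTop (𝓝 (v 3 * (v 1 + D * v 0))) := l3.mul (l1.add (l0.const_mul D))
    have t2 : Tendsto (fun k => al + y (φ k + 1)) atTop (𝓝 (al + v 1)) := l1.const_add al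
    refine tendsto_nhds_unique t1 (t2.congr fun k => ?_)
    exact (hstep (φ k)).symm
  · have t1 : Tendsto (fun k => y (φ k + 4) * (y (φ k + 2) + D * y (φ k + 1)))
        atTop (𝓝 (v 4 * (v 2 + D * v 1))) := l4.mul (l2.add (l1.const_mul D))
    have t2 : Tendsto (fun k => al + y (φ k + 2)) atTop (𝓝 (al + v 2)) := l2.const_add al
    refine tendsto_nhds_unique t1 (t2.congr fun k => ?_)
    exact (hstep (φ k + 1)).symm
  · have t1 : Tendsto (fun k => y (φ k + 5) * (y (φ k + 3) + D * y (φ k + 2)))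
        atTop (𝓝 (c * (v 3 + D * v 2))) := l5.mul (l3.add (l2.const_mul D))
    have t2 : Tendsto (fun k => al + y (φ k + 3)) atTop (𝓝 (al + v 3)) := l3.const_add al
    refine tendsto_nhds_unique t1 (t2.congr fun k => ?_)
    exact (hstep (φ k + 2)).symm
  · rintro ⟨a, b, d⟩
    obtain ⟨k, h1, h2, h3⟩ := ((l1.eventually_const_lt a).and
      ((l2.eventually_lt_const b).and (l3.eventually_const_lt d))).exists
    exact n1 (φ k + 1) ⟨h1, h2, h3⟩
  · rintro ⟨a, b, d⟩
    obtain ⟨k, h1, h2, h3⟩ := ((l1.eventually_lt_const a).and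
      ((l2.eventually_const_lt b).and (l3.eventually_lt_const d))).exists
    exact n2 (φ k + 1) ⟨h1, h2, h3⟩
  · rintro ⟨a, b, d⟩
    obtain ⟨k, h1, h2, h3⟩ := ((l3.eventually_const_lt a).and
      ((l4.eventually_lt_const b).and (l5.eventually_const_lt d))).exists
    exact n1 (φ k + 3) ⟨h1, h2, h3⟩
  · rintro ⟨a, b, d⟩
    obtain ⟨k, h1, h2, h3⟩ := ((l3.eventually_lt_const a).and
      ((l4.eventually_const_lt b).and (l5.eventually_lt_const d))).exists
    exact n2 (φ k + 3) ⟨h1, h2, h3⟩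

/-- **N2** -/
theorem t_N2 (h1 : S_N2ALG) (h2 : S_N2UP) (h3 : S_N2UP0) (h4 : S_N2LO) (h5 : S_N2LO0) :
    S_N2 := by
  intro al D z x hal hD hbi hx hz hzz' hq hn1 hn2
  have hzz : z * ((D + 1) * z) = al + z := by linarith [hzz']
  have hzg : z * (0 + (D + 1) * z) = al + z := by linarith [hzz']
  obtain ⟨L, K, hL, hb⟩ := bounds hal le_rfl le_rfl hD hx
  obtain ⟨y, hy⟩ : ∃ y : ℕ → ℝ, y = fun n => x (n + 3) := ⟨_, rfl⟩
  have hyb : ∀ n, y n ∈ Set.Icc L K := by
    intro n
    rw [hy]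
    exact hb n
  have hstep : ∀ n, y (n + 3) * (y (n + 1) + D * y n) = al + y (n + 1) := by
    intro n
    rw [hy]
    show x (n + 3 + 3) * (x (n + 3 + 1) + D * x (n + 3)) = al + x (n + 3 + 1)
    have e1 := hx.step (n + 3)
    have e2 := hx.den (n + 3)
    rw [eq_div_iff e2.ne'] at e1
    linarith [e1]
  have n1 : ∀ n, ¬ (z < y n ∧ y (n + 1) < z ∧ z < y (n + 2)) := by
    intro n
    rw [hy]
    exact hn1 (n + 3)
  have n2 : ∀ n, ¬ (y n < z ∧ z < y (n + 1) ∧ y (n + 2) < z) := by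
    intro n
    rw [hy]
    exact hn2 (n + 3)
  have hbU : atTop.IsBoundedUnder (· ≤ ·) y := isBoundedUnder_of ⟨K, fun n => (hyb n).2⟩
  have hbL : atTop.IsBoundedUnder (· ≥ ·) y := isBoundedUnder_of ⟨L, fun n => (hyb n).1⟩
  obtain ⟨S, hS⟩ : ∃ S, S = limsup y atTop := ⟨_, rfl⟩
  obtain ⟨I, hI⟩ : ∃ I, I = liminf y atTop := ⟨_, rfl⟩
  have hup : ∀ ε > 0, ∃ N, ∀ n ≥ N, y n < S + ε := by
    intro ε hε
    exact eventually_atTop.1 (eventually_lt_of_limsup_lt (by rw [← hS]; linarith) hbU)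
  have hlo : ∀ ε > 0, ∃ N, ∀ n ≥ N, I - ε < y n := by
    intro ε hε
    exact eventually_atTop.1 (eventually_lt_of_lt_liminf (by rw [← hI]; linarith) hbL)
  have hcS : ∀ ε > 0, ∀ N, ∃ n ≥ N, |y n - S| < ε := by
    intro ε hε N
    obtain ⟨N', hN'⟩ := hup ε hε
    have hf : ∃ᶠ n in atTop, S - ε < y n :=
      frequently_lt_of_lt_limsup hbL.isCoboundedUnder_le (by rw [← hS]; linarith)
    obtain ⟨n, hn, h1⟩ := frequently_atTop.1 hf (max N N')
    refine ⟨n, (le_max_left _ _).trans hn, ?_⟩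
    have h2 := hN' n ((le_max_right _ _).trans hn)
    rw [abs_lt]
    constructor <;> linarith
  have hcI : ∀ ε > 0, ∀ N, ∃ n ≥ N, |y n - I| < ε := by
    intro ε hε N
    obtain ⟨N', hN'⟩ := hlo ε hε
    have hf : ∃ᶠ n in atTop, y n < I + ε :=
      frequently_lt_of_liminf_lt hbU.isCoboundedUnder_ge (by rw [← hI]; linarith)
    obtain ⟨n, hn, h1⟩ := frequently_atTop.1 hf (max N N')
    refine ⟨n, (le_max_left _ _).trans hn, ?_⟩
    have h2 := hN' n ((le_max_right _ _).trans hn)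
    rw [abs_lt]
    constructor <;> linarith
  have hIL : L ≤ I := by
    rw [hI]
    exact le_liminf_of_le hbU.isCoboundedUnder_ge (Eventually.of_forall fun n => (hyb n).1)
  have hI0 : 0 < I := hL.trans_le hIL
  have hIS : I ≤ S := by
    rw [hI, hS]
    exact liminf_le_limsup hbU hbL
  have hS0 : 0 < S := hI0.trans_le hIS
  obtain ⟨y0, y1, y2, y3, y4, a0, a1, a2, a3, a4, e3, e4, e5, m1, -, m3, -⟩ :=
    orbit2 hyb hstep n1 n2 hup hlo hcS
  obtain ⟨w0, w1, w2, w3, w4, k0, k1, k2, k3, k4, f3, f4, f5, -, m2, -, m4⟩ :=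
    orbit2 hyb hstep n1 n2 hup hlo hcI
  have hz1 : z < 1 := by
    by_contra hc
    push Not at hc
    nlinarith [mul_nonneg (by linarith : (0 : ℝ) ≤ z - 1) (by linarith : (0 : ℝ) ≤ z), mul_pos hD hz,
      mul_nonneg (mul_nonneg hD.le (by linarith : (0 : ℝ) ≤ z - 1)) hz.le]
  have hIS' : I = S := by
    by_contra hne
    have hlt : I < S := lt_of_le_of_ne hIS hne
    have hk : al ≤ D * I := by
      have := alg2 (al := al) (A := 0) (B := 0) (D := D) (I := I) (S := S) (v := y2) (u := y3)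
        (w := y4) (v' := w2) (u' := w3) (w' := w4) le_rfl le_rfl hD hI0 hlt a2 a3 a4 k2 k3 k4
        (by linarith [e5]) (by linarith [f5])
      linarith
    have DI : 0 < D * I := mul_pos hD hI0
    have g5 : S = gg al (D * y2) y3 := by
      have d2 : D * I ≤ D * y2 := mul_le_mul_of_nonneg_left a2.1 hD.le
      exact eq_gg (by linarith [a3.1]) e5 (by ring)
    have g5' : I = gg al (D * w2) w3 := by
      have d2 : D * I ≤ D * w2 := mul_le_mul_of_nonneg_left k2.1 hD.le
      exact eq_gg (by linarith [k3.1]) f5 (by ring)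
    have hIz : I < z := by
      by_contra hc
      push Not at hc
      have d2 : D * I ≤ D * y2 := mul_le_mul_of_nonneg_left a2.1 hD.le
      have g1 : S ≤ gg al (D * I) S := by
        conv_lhs => rw [g5]
        exact frac hal d2 hk (by linarith [a3.1]) a3.2
      have g2 : gg al (D * I) S ≤ gg al (0 + D * z) S := by
        unfold gg
        have hzI : D * z ≤ D * I := mul_le_mul_of_nonneg_left hc hD.le
        have hEz : 0 < D * z := mul_pos hD hz
        exact div_le_div_of_nonneg_left (by linarith) (by linarith) (by linarith)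
      have g3 := gg_lt hal le_rfl hD hz hzg (lt_of_le_of_lt hc hlt)
      linarith
    have hzS : z < S := by
      by_contra hc
      push Not at hc
      have d2 : D * w2 ≤ D * S := mul_le_mul_of_nonneg_left k2.2 hD.le
      have d2' : D * I ≤ D * w2 := mul_le_mul_of_nonneg_left k2.1 hD.le
      have g1 : gg al (D * S) I ≤ I := by
        conv_rhs => rw [g5']
        exact frac hal d2 (by linarith) hI0 k3.1
      have g2 : gg al (0 + D * z) I ≤ gg al (D * S) I := by
        unfold gg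
        have hzI : D * S ≤ D * z := mul_le_mul_of_nonneg_left hc hD.le
        have hEz : 0 < D * S := mul_pos hD hS0
        exact div_le_div_of_nonneg_left (by linarith) (by linarith) (by linarith)
      have g3 := lt_gg hal le_rfl hD hz hzg hI0 hIz
      linarith
    have hDz : D * I ≤ D * z := mul_le_mul_of_nonneg_left hIz.le hD.le
    have hzD : z * D ≠ 0 := (mul_pos hz hD).ne'
    obtain ⟨u, hu⟩ : ∃ u : ℝ, z * D * u = z * D * z - (1 - z) * (z - I) :=
      ⟨(z * D * z - (1 - z) * (z - I)) / (z * D), mul_div_cancel₀ _ hzD⟩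
    obtain ⟨v, hv⟩ : ∃ v : ℝ, z * D * v = z * D * z - (1 - z) * (z - S) :=
      ⟨(z * D * z - (1 - z) * (z - S)) / (z * D), mul_div_cancel₀ _ hzD⟩
    have up : S * (D * I * (u + D * I) + al + u) ≤ al * (u + D * I) + al + u := by
      rcases le_or_gt y3 z with hy3 | hy3
      · exact h3 al D z I S u y2 y3 hal hD hz hz1 hzz hI0 hIz.le hk hS0 hu a2.1
          (hI0.trans_le a3.1) hy3 e5
      · have hy4 : z ≤ y4 := by
          by_contra hc
          push Not at hc
          exact m3 ⟨hy3, hc, hzS⟩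
        have hy1 : y1 ≤ z := by
          by_contra hc
          push Not at hc
          have hy2 : z ≤ y2 := by
            by_contra hc2
            push Not at hc2
            exact m1 ⟨hc, hc2, hy3⟩
          have c1 : 0 + D * z ≤ D * y2 := by
            have := mul_le_mul_of_nonneg_left hy2 hD.le
            linarith
          have g1 := frac hal c1 (by linarith) (by linarith [a3.1] : 0 < y3) a3.2
          have g2 := gg_lt hal le_rfl hD hz hzg hzS
          rw [← g5] at g1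
          linarith
        exact h2 al D z I S u y0 y1 y2 y3 y4 hal hD hz hz1 hzz hI0 hIz.le hk hS0 hu a0.1 a1.1 hy1
          a2.1 (hI0.trans_le a3.1) hy4 e3 e4 e5
    have lo : al * (v + D * S) + al + v ≤ I * (D * S * (v + D * S) + al + v) := by
      have hDw2 : al ≤ D * w2 := hk.trans (mul_le_mul_of_nonneg_left k2.1 hD.le)
      rcases le_or_gt z w3 with hw3 | hw3
      · exact h5 al D z I S v w2 w3 hal hD hz hz1 hzz hzS.le (hk.trans hDz) hI0 hv k2.2 hDw2
          (hI0.trans_le k2.1) hw3 f5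
      · have hw4 : w4 ≤ z := by
          by_contra hc
          push Not at hc
          exact m4 ⟨hw3, hc, hIz⟩
        have hw1 : z ≤ w1 := by
          by_contra hc
          push Not at hc
          have hw2 : w2 ≤ z := by
            by_contra hc2
            push Not at hc2
            exact m2 ⟨hc, hc2, hw3⟩
          have c1 : D * w2 ≤ 0 + D * z := by
            have := mul_le_mul_of_nonneg_left hw2 hD.le
            linarith
          have g1 := frac hal c1 hDw2 hI0 k3.1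
          have g2 := lt_gg hal le_rfl hD hz hzg hI0 hIz
          rw [← g5'] at g1
          linarith
        exact h4 al D z I S v w0 w1 w2 w3 w4 hal hD hz hz1 hzz hzS.le (hk.trans hDz) hI0 hv
          (hI0.trans_le k0.1) k0.2 hw1 k1.2 k2.2 hDw2 (hI0.trans_le k2.1) (hI0.trans_le k3.1)
          (hI0.trans_le k4.1) hw4 f3 f4 f5
    exact h1 al D z S I u v hal hD hz hz1 hzz hq hI0 hlt hu hv up lo
  have hSz : S = z := by
    have b3 : y3 = S := le_antisymm a3.2 (by rw [← hIS']; exact a3.1)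
    have b2 : y2 = S := le_antisymm a2.2 (by rw [← hIS']; exact a2.1)
    rw [b3, b2] at e5
    have hk : 0 < (D + 1) * z - 1 := by
      have h1 : z * ((D + 1) * z - 1) = al := by linarith
      by_contra hc
      push Not at hc
      have : z * ((D + 1) * z - 1) ≤ 0 := mul_nonpos_of_nonneg_of_nonpos hz.le hc
      linarith
    have hk2 : 0 < (D + 1) * S := by positivity
    have h9 : (S - z) * ((D + 1) * S + ((D + 1) * z - 1)) = 0 := by
      linear_combination e5 - hzz
    rcases mul_eq_zero.1 h9 with h10 | h10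
    · linarith
    · linarith
  have hyt : Tendsto y atTop (𝓝 z) := by
    rw [← hSz]
    exact tendsto_of_liminf_eq_limsup (by rw [← hI, hIS']) hS.symm hbU hbL
  rw [hy] at hyt
  exact (tendsto_add_atTop_iff_nat 3).1 hyt

end Pool.Agent.E8helper52.RR
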