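import Pool.Agent.E8helper48.RR.Stm5

/-!
# RR, pieces UP5 and UP50 (equation (E5), algebra)
-/

set_option autoImplicit false

namespace Pool.Agent.E8helper52.RR

open RR48

theorem t_UP50 : S_UP50 := by
  intro al A D z I S y2 y3 hal hA hD hz hzz hD1 hI hIz haI hS hy2 hy3 hy3z hSe
  have hz1 : 0 < 1 - z := by nlinarith
  have hDI : D * I ≤ D * y2 := mul_le_mul_of_nonneg_left hy2 hD.le
  have hDIp : 0 < D * I := mul_pos hD hI
  have hpos : 0 < A + y3 + D * y2 := by linarith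
  have hS1 : S ≤ 1 := by
    by_contra hcon
    push Not at hcon
    nlinarith
  have h1 : S * (A + z + D * I) ≤ al + z := by
    have e : S * (A + z + D * I) = S * (A + y3 + D * y2) + S * (z - y3) - S * (D * y2 - D * I) := by
      ring
    have e1 : S * (z - y3) ≤ 1 * (z - y3) := mul_le_mul_of_nonneg_right hS1 (by linarith)
    have e2 : 0 ≤ S * (D * y2 - D * I) := mul_nonneg hS.le (by linarith)
    rw [e, hSe]
    linarith
  have h2 : (al + z) * I < z ^ 2 * (A + z + D * I) := by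
    have e : z ^ 2 * (A + z + D * I) = z * (al + z) - z ^ 2 * D * (z - I) := by
      rw [← hzz]; ring
    have e1 : z ^ 2 * D < al + z := by
      have : z * (D * z) < z * 1 := mul_lt_mul_of_pos_left (by nlinarith) hz
      nlinarith
    have e2 : z ^ 2 * D * (z - I) < (al + z) * (z - I) :=
      mul_lt_mul_of_pos_right e1 (by linarith)
    rw [e]
    linarith
  have h3 : 0 < A + z + D * I := by linarith
  have h4 : S * I * (A + z + D * I) < z ^ 2 * (A + z + D * I) := by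
    have : S * I * (A + z + D * I) = S * (A + z + D * I) * I := by ring
    rw [this]
    exact lt_of_le_of_lt (mul_le_mul_of_nonneg_right h1 hI.le) h2
  exact lt_of_mul_lt_mul_right h4 h3.le

/-- the polynomial which has to be positive -/
theorem core {al z t r s : ℝ} (hal : 0 < al) (hz : 0 < z) (hz1 : z < 1) (ht : 0 < t) (ht1 : t ≤ 1)
    (hr : 0 ≤ r) (hr1 : r ≤ 1) (hs : 0 ≤ s) (hs1 : s ≤ 1) :
    0 < s * (1 - z) * z * ((1 - z) * z - t ^ 2 * (al + z)) + (al + z) ^ 2 - (1 - z) ^ 2 * z ^ 2 * t +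
      r * z * (t ^ 2 * (1 - z) * z * s * (z * s + t * (1 - z)) - (1 + al) * s * z -
        al * t * (1 - z)) := by
  have hw : 0 < 1 - z := by linarith
  have ht2 : t ^ 2 ≤ t := by nlinarith
  have ht0 : 0 < t ^ 2 := by positivity
  have hw1 : (1 - z) ^ 2 ≤ 1 := by nlinarith
  -- r = 0
  have a0 : 0 < (al + z) ^ 2 - (1 - z) ^ 2 * z ^ 2 * t := by
    have e1 : (1 - z) ^ 2 * z ^ 2 * t ≤ 1 * z ^ 2 * 1 := by gcongr
    nlinarith [mul_pos hal hz, sq_nonneg al]
  have a1 : 0 < (1 - z) ^ 2 * z ^ 2 * (1 - t) + (al + z) * ((al + z) - z * (1 - z) * t ^ 2) := by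
    have e1 : 0 ≤ (1 - z) ^ 2 * z ^ 2 * (1 - t) := by
      have : 0 ≤ 1 - t := by linarith
      positivity
    have e2 : z * (1 - z) * t ^ 2 ≤ z * 1 * 1 := by
      gcongr <;> linarith
    have e3 : 0 < (al + z) * ((al + z) - z * (1 - z) * t ^ 2) :=
      mul_pos (by linarith) (by linarith)
    linarith
  -- r = 1
  have b1 : 0 < z ^ 2 * (1 - z) ^ 2 * ((1 - t) * (1 - t ^ 2)) +
      al * z * (2 - z - (1 - z) * (t + t ^ 2)) + al ^ 2 := by
    have e1 : 0 ≤ (1 - t) * (1 - t ^ 2) := mul_nonneg (by linarith) (by linarith)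
    have e2 : 0 ≤ 2 - z - (1 - z) * (t + t ^ 2) := by
      have : (1 - z) * (t + t ^ 2) ≤ (1 - z) * 2 := mul_le_mul_of_nonneg_left (by linarith) hw.le
      linarith
    positivity
  have b2 : 0 ≤ z * (z * (1 + al + t ^ 2 * (1 - z) - t ^ 3 * (1 - z) ^ 2 - (1 - z) ^ 2 -
      2 * t ^ 2 * (1 - z) * z) + t ^ 2 * (1 - z) * al) := by
    have e1 : t ^ 3 * (1 - z) ^ 2 ≤ t ^ 2 * (1 - z) ^ 2 := by
      have : t ^ 3 ≤ t ^ 2 := by nlinarith
      gcongr
    have e2 : t ^ 2 * (1 - z) ≤ 1 := by nlinarith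
    have e3 : 0 ≤ 1 + al + t ^ 2 * (1 - z) - t ^ 3 * (1 - z) ^ 2 - (1 - z) ^ 2 -
      2 * t ^ 2 * (1 - z) * z := by
      have e4 : al + z * (2 - z - t ^ 2 * (1 - z)) ≤ 1 + al + t ^ 2 * (1 - z) -
          t ^ 3 * (1 - z) ^ 2 - (1 - z) ^ 2 - 2 * t ^ 2 * (1 - z) * z := by nlinarith
      have e5 : 0 ≤ z * (2 - z - t ^ 2 * (1 - z)) := mul_nonneg hz.le (by linarith)
      linarith
    positivity
  have b3 : 0 ≤ z * (t ^ 2 * (1 - z) * z ^ 2) := by positivity
  have c0 : 0 < (1 - s) * ((al + z) ^ 2 - (1 - z) ^ 2 * z ^ 2 * t) +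
      s * ((1 - z) ^ 2 * z ^ 2 * (1 - t) + (al + z) * ((al + z) - z * (1 - z) * t ^ 2)) := by
    rcases hs.eq_or_lt with h | h
    · rw [← h]; simpa using a0
    · exact add_pos_of_nonneg_of_pos (mul_nonneg (sub_nonneg.2 hs1) a0.le) (mul_pos h a1)
  have c1 : 0 < (z ^ 2 * (1 - z) ^ 2 * ((1 - t) * (1 - t ^ 2)) +
      al * z * (2 - z - (1 - z) * (t + t ^ 2)) + al ^ 2) +
      (1 - s) * (z * (z * (1 + al + t ^ 2 * (1 - z) - t ^ 3 * (1 - z) ^ 2 - (1 - z) ^ 2 -
      2 * t ^ 2 * (1 - z) * z) + t ^ 2 * (1 - z) * al)) +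
      (1 - s) ^ 2 * (z * (t ^ 2 * (1 - z) * z ^ 2)) := by
    have e1 := mul_nonneg (sub_nonneg.2 hs1) b2
    have e2 := mul_nonneg (sq_nonneg (1 - s)) b3
    linarith
  have key : s * (1 - z) * z * ((1 - z) * z - t ^ 2 * (al + z)) + (al + z) ^ 2 -
      (1 - z) ^ 2 * z ^ 2 * t +
      r * z * (t ^ 2 * (1 - z) * z * s * (z * s + t * (1 - z)) - (1 + al) * s * z -
        al * t * (1 - z)) =
      (1 - r) * ((1 - s) * ((al + z) ^ 2 - (1 - z) ^ 2 * z ^ 2 * t) +
      s * ((1 - z) ^ 2 * z ^ 2 * (1 - t) + (al + z) * ((al + z) - z * (1 - z) * t ^ 2))) +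
      r * ((z ^ 2 * (1 - z) ^ 2 * ((1 - t) * (1 - t ^ 2)) +
      al * z * (2 - z - (1 - z) * (t + t ^ 2)) + al ^ 2) +
      (1 - s) * (z * (z * (1 + al + t ^ 2 * (1 - z) - t ^ 3 * (1 - z) ^ 2 - (1 - z) ^ 2 -
      2 * t ^ 2 * (1 - z) * z) + t ^ 2 * (1 - z) * al)) +
      (1 - s) ^ 2 * (z * (t ^ 2 * (1 - z) * z ^ 2))) := by ring
  rw [key]
  rcases hr.eq_or_lt with h | h
  · rw [← h]; simpa using c0
  · exact add_pos_of_nonneg_of_pos (mul_nonneg (sub_nonneg.2 hr1) c0.le) (mul_pos h c1)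

theorem ident {al z t r s : ℝ} (hz : z ≠ 0) :
    z ^ 2 * ((1 - z) * (((al + z) / z - z - t * (1 - z)) - al) + t * (1 - z) / z *
      (z * (1 - z) - t * (1 - z) / z * z * (z - z * (1 - r * s)))) *
      (((al + z) / z - z - t * (1 - z)) + z * (1 - r * s) + t * (1 - z) / z * (z * (1 - r))) -
      (1 - z) * (z * (1 - r) - z ^ 2) *
      (al * (((al + z) / z - z - t * (1 - z)) + z * (1 - r * s) + t * (1 - z) / z * (z * (1 - r))) +
        al + z * (1 - r * s)) =
    r * (1 - z) * (s * (1 - z) * z * ((1 - z) * z - t ^ 2 * (al + z)) + (al + z) ^ 2 -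
      (1 - z) ^ 2 * z ^ 2 * t +
      r * z * (t ^ 2 * (1 - z) * z * s * (z * s + t * (1 - z)) - (1 + al) * s * z -
        al * t * (1 - z))) := by
  field_simp
  ring

theorem t_UP5 : S_UP5 := by
  intro al A D z I S y0 y1 y2 y3 y4 hal hA hD hz hzz hD1 hI hIz haI hS hy0 hy1 hy1z hy2 hy3 hy4
    h3 h4 hSe
  have hz1 : 0 < 1 - z := by nlinarith
  have hi : 0 < z - I := by linarith
  -- parameters
  obtain ⟨t, ht⟩ : ∃ t, t = D * z / (1 - z) := ⟨_, rfl⟩
  obtain ⟨r, hr⟩ : ∃ r, r = (z - I) / z := ⟨_, rfl⟩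
  obtain ⟨s, hs⟩ : ∃ s, s = (z - y1) / (z - I) := ⟨_, rfl⟩
  have hDt : D = t * (1 - z) / z := by rw [ht]; field_simp
  have hIr : I = z * (1 - r) := by rw [hr]; field_simp; ring
  have hy1s : y1 = z * (1 - r * s) := by rw [hr, hs]; field_simp; ring
  have hAe : A = (al + z) / z - z - t * (1 - z) := by
    rw [← hzz, ht]; field_simp; ring
  have ht0 : 0 < t := by rw [ht]; positivity
  have ht1 : t ≤ 1 := by rw [ht, div_le_one hz1]; linarith
  have hr0 : 0 < r := by rw [hr]; positivity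
  have hr1 : r ≤ 1 := by rw [hr, div_le_one hz]; linarith
  have hs0 : 0 ≤ s := by rw [hs]; exact div_nonneg (by linarith) hi.le
  have hs1 : s ≤ 1 := by rw [hs, div_le_one hi]; linarith
  have hcore := core hal hz (by linarith) ht0 ht1 hr0.le hr1 hs0 hs1
  have hL : 0 < z ^ 2 * ((1 - z) * (A - al) + D * (z * (1 - z) - D * z * (z - y1))) *
      (A + y1 + D * I) - (1 - z) * (I - z ^ 2) * (al * (A + y1 + D * I) + al + y1) := by
    rw [hAe, hDt, hIr, hy1s, ident hz.ne']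
    exact mul_pos (mul_pos hr0 hz1) hcore
  -- the bounds
  have hDI : 0 < D * I := mul_pos hD hI
  have hP : 0 < A + y1 + D * I := by linarith
  have hy3P : y3 * (A + y1 + D * I) ≤ al + y1 := by
    rw [← h3]
    have : D * I ≤ D * y0 := mul_le_mul_of_nonneg_left hy0 hD.le
    exact mul_le_mul_of_nonneg_left (by linarith) hy3.le
  have hG0 : 0 ≤ A + D * y2 - al := by
    have : D * I ≤ D * y2 := mul_le_mul_of_nonneg_left hy2 hD.le
    linarith
  have hG1 : (1 - z) * (A - al) + D * (z * (1 - z) - D * z * (z - y1)) ≤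
      (1 - z) * (A + D * y2 - al) := by
    have e0 : 0 < A + y2 + D * y1 := by
      have : 0 < D * y1 := mul_pos hD (by linarith)
      linarith
    have e1 : z * (A + y2 + D * y1) ≤ al + y2 := by
      rw [← h4]; exact mul_le_mul_of_nonneg_right hy4 e0.le
    have e2 : z * (1 - z) - D * z * (z - y1) ≤ (1 - z) * y2 := by
      have e20 : z * (A + (D + 1) * z) = z * A + (D + 1) * z ^ 2 := by ring
      have e21 : al = z * A + (D + 1) * z ^ 2 - z := by linarith
      have e22 : z * (A + y2 + D * y1) = z * A + z * y2 + z * D * y1 := by ring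
      have e23 : z * (1 - z) - D * z * (z - y1) = z - (D + 1) * z ^ 2 + z * D * y1 := by ring
      have e24 : (1 - z) * y2 = y2 - z * y2 := by ring
      rw [e23, e24]
      linarith
    have e3 := mul_le_mul_of_nonneg_left e2 hD.le
    have e4 : (1 - z) * (A + D * y2 - al) = (1 - z) * (A - al) + D * ((1 - z) * y2) := by ring
    rw [e4]
    linarith
  have hGP : (1 - z) * ((I - z ^ 2) * (al * (A + y1 + D * I) + al + y1)) <
      (1 - z) * (z ^ 2 * (A + D * y2 - al) * (A + y1 + D * I)) := by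
    have e1 : z ^ 2 * ((1 - z) * (A - al) + D * (z * (1 - z) - D * z * (z - y1))) *
        (A + y1 + D * I) ≤ z ^ 2 * ((1 - z) * (A + D * y2 - al)) * (A + y1 + D * I) := by
      gcongr
    have e2 : (1 - z) * (z ^ 2 * (A + D * y2 - al) * (A + y1 + D * I)) =
        z ^ 2 * ((1 - z) * (A + D * y2 - al)) * (A + y1 + D * I) := by ring
    have e3 : (1 - z) * ((I - z ^ 2) * (al * (A + y1 + D * I) + al + y1)) =
        (1 - z) * (I - z ^ 2) * (al * (A + y1 + D * I) + al + y1) := by ring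
    rw [e2, e3]
    linarith
  have hGP' : (I - z ^ 2) * (al * (A + y1 + D * I) + al + y1) <
      z ^ 2 * (A + D * y2 - al) * (A + y1 + D * I) := lt_of_mul_lt_mul_left hGP hz1.le
  have hw : (al + y3) * (A + y1 + D * I) ≤ al * (A + y1 + D * I) + al + y1 := by
    linarith [add_mul al y3 (A + y1 + D * I)]
  have hfin : (al + y3) * (I - z ^ 2) < z ^ 2 * (A + D * y2 - al) := by
    rcases lt_or_ge (I - z ^ 2) 0 with h | h
    · have e1 : (al + y3) * (I - z ^ 2) < 0 := mul_neg_of_pos_of_neg (by linarith) h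
      have e2 : 0 ≤ z ^ 2 * (A + D * y2 - al) := mul_nonneg (by positivity) hG0
      linarith
    · refine lt_of_mul_lt_mul_right ?_ hP.le
      have e1 := mul_le_mul_of_nonneg_left hw h
      calc (al + y3) * (I - z ^ 2) * (A + y1 + D * I)
          = (I - z ^ 2) * ((al + y3) * (A + y1 + D * I)) := by ring
        _ ≤ _ := e1
        _ < _ := hGP'
  have hden : 0 < A + y3 + D * y2 := by linarith
  refine lt_of_mul_lt_mul_right (a := A + y3 + D * y2) ?_ hden.le
  have e : S * I * (A + y3 + D * y2) = (al + y3) * I := by rw [← hSe]; ring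
  rw [e]
  have e2 : z ^ 2 * (A + y3 + D * y2) = z ^ 2 * (A + D * y2 - al) + (al + y3) * z ^ 2 := by ring
  rw [e2]
  linarith [mul_sub (al + y3) I (z ^ 2)]

end Pool.Agent.E8helper52.RR
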